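import Pool.Agent.Y400.SE.Final

set_option autoImplicit false

namespace Pool.Agent.Y400.SE

open Pool.Agent.W823.SFP MeasureTheory ProbabilityTheory Filter

/-- The quantile function of a law with `F_L(t) ≥ c t^κ` near `0` is integrable in the sense
`I(L) < ∞`. -/
theorem integrable_quantile' (μ : Measure ℝ) [IsProbabilityMeasure μ] (κ c : ℝ) (hκ : 0 < κ)
    (hc : 0 < c) (h0 : μ (Set.Iic 0) = 0)
    (hlo : ∀ t : ℝ, 0 < t → t ≤ 1 → ENNReal.ofReal (c * t ^ κ) ≤ μ (Set.Iic t)) :
    IntegrableOn (fun y => quantile μ (Real.exp (-Real.exp y))) (Set.Ioi 0) := by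
  have hF0 : ∀ u t : ℝ, 0 < u → u ≤ (μ (Set.Iic t)).toReal → 0 < t := by
    intro u t hu ht
    by_contra hcon
    have : μ (Set.Iic t) = 0 := measure_mono_null (Set.Iic_subset_Iic.2 (not_lt.1 hcon)) h0
    rw [this] at ht
    simp at ht
    linarith
  have hbdd : ∀ u : ℝ, 0 < u → BddBelow {t : ℝ | u ≤ (μ (Set.Iic t)).toReal} := fun u hu =>
    ⟨0, fun t ht => (hF0 u t hu ht).le⟩
  have hne : ∀ u : ℝ, u < 1 → ({t : ℝ | u ≤ (μ (Set.Iic t)).toReal}).Nonempty := by
    intro u hu
    have ht : Tendsto (fun t : ℝ => (μ (Set.Iic t)).toReal) atTop (nhds 1) := by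
      have h1 := tendsto_measure_Iic_atTop μ
      rw [measure_univ] at h1
      have h2 := (ENNReal.tendsto_toReal (by simp : (1 : ENNReal) ≠ ⊤)).comp h1
      simpa [Function.comp_def] using h2
    obtain ⟨t, ht'⟩ := (ht.eventually_const_le hu).exists
    exact ⟨t, ht'⟩
  have hq0 : ∀ u : ℝ, 0 < u → u < 1 → 0 ≤ quantile μ u := fun u hu hu1 =>
    le_csInf (hne u hu1) fun t ht => (hF0 u t hu ht).le
  have hqmono : ∀ u w : ℝ, 0 < u → u ≤ w → w < 1 → quantile μ u ≤ quantile μ w := fun u w hu huw hw =>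
    csInf_le_csInf (hbdd u hu) (hne w hw) fun t ht => huw.trans ht
  have hqle : ∀ u : ℝ, 0 < u → u ≤ c → quantile μ u ≤ (u / c) ^ (1 / κ) := by
    intro u hu huc
    apply csInf_le (hbdd u hu)
    simp only [Set.mem_ofPred_eq]
    have h1 : 0 < u / c := by positivity
    have h2 : u / c ≤ 1 := (div_le_one hc).2 huc
    have h3 := hlo ((u / c) ^ (1 / κ)) (by positivity) (Real.rpow_le_one h1.le h2 (by positivity))
    rw [← Real.rpow_mul h1.le, one_div_mul_cancel hκ.ne', Real.rpow_one, mul_div_cancel₀ _ hc.ne'] at h3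
    exact (ENNReal.ofReal_le_iff_le_toReal (measure_ne_top _ _)).1 h3
  have hanti : AntitoneOn (fun y => quantile μ (Real.exp (-Real.exp y))) (Set.Ioi 0) := by
    intro y hy z hz hyz
    apply hqmono _ _ (Real.exp_pos _)
    · apply Real.exp_le_exp.2
      have := Real.exp_le_exp.2 hyz
      linarith
    · rw [Real.exp_lt_one_iff]; linarith [Real.exp_pos y]
  set M : ℝ := quantile μ (Real.exp (-1)) + (1 / c) ^ (1 / κ) with hM
  have he1 : Real.exp (-1) < 1 := by rw [Real.exp_lt_one_iff]; norm_num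
  have hMq := hq0 (Real.exp (-1)) (Real.exp_pos _) he1
  -- for large `y` the argument is at most `c`
  obtain ⟨y0, hy0⟩ : ∃ y0 : ℝ, 0 < y0 ∧ ∀ y, y0 ≤ y → Real.exp (-Real.exp y) ≤ c := by
    have ht : Tendsto (fun y : ℝ => Real.exp (-Real.exp y)) atTop (nhds 0) :=
      Real.tendsto_exp_atBot.comp (tendsto_neg_atTop_atBot.comp Real.tendsto_exp_atTop)
    obtain ⟨y1, hy1⟩ := eventually_atTop.1 (ht.eventually_le_const hc)
    exact ⟨max 1 y1, lt_of_lt_of_le one_pos (le_max_left _ _), fun y hy => hy1 y ((le_max_right _ _).trans hy)⟩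
  have hexp : ∀ y : ℝ, 0 < y → Real.exp (-Real.exp y) ≤ Real.exp (-1) := by
    intro y hy
    apply Real.exp_le_exp.2
    have := Real.add_one_le_exp y
    linarith
  have hbig : ∀ y : ℝ, 0 < y → quantile μ (Real.exp (-Real.exp y)) ≤
      (quantile μ (Real.exp (-1)) * Real.exp (y0 / κ) + (1 / c) ^ (1 / κ)) * Real.exp (-(1 / κ) * y) := by
    intro y hy
    rcases le_total y y0 with hyy | hyy
    · have h1 := hqmono _ _ (Real.exp_pos _) (hexp y hy) he1
      have h2 : 1 ≤ Real.exp (y0 / κ) * Real.exp (-(1 / κ) * y) := by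
        rw [← Real.exp_add]
        apply Real.one_le_exp
        have : y0 / κ + -(1 / κ) * y = (y0 - y) / κ := by ring
        rw [this]
        apply div_nonneg (by linarith) hκ.le
      have h3 : 0 ≤ (1 / c) ^ (1 / κ) * Real.exp (-(1 / κ) * y) := by positivity
      nlinarith
    · have h1 := hqle _ (Real.exp_pos (-Real.exp y)) (hy0.2 y hyy)
      have h2 : (Real.exp (-Real.exp y) / c) ^ (1 / κ) ≤ (1 / c) ^ (1 / κ) * Real.exp (-(1 / κ) * y) := by
        have h21 : Real.exp (-Real.exp y) / c ≤ 1 / c * Real.exp (-y) := by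
          have : Real.exp (-Real.exp y) ≤ Real.exp (-y) := by
            apply Real.exp_le_exp.2
            linarith [Real.add_one_le_exp y]
          rw [div_mul_eq_mul_div, one_mul]
          gcongr
        calc _ ≤ (1 / c * Real.exp (-y)) ^ (1 / κ) :=
              Real.rpow_le_rpow (by positivity) h21 (by positivity)
          _ = _ := by
              rw [Real.mul_rpow (by positivity) (Real.exp_pos _).le, ← Real.exp_mul]
              congr 2; ring
      have h3 : 0 ≤ quantile μ (Real.exp (-1)) * Real.exp (y0 / κ) * Real.exp (-(1 / κ) * y) := by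
        positivity
      nlinarith
  have hg : IntegrableOn (fun y : ℝ => (quantile μ (Real.exp (-1)) * Real.exp (y0 / κ) +
      (1 / c) ^ (1 / κ)) * Real.exp (-(1 / κ) * y)) (Set.Ioi 0) :=
    (exp_neg_integrableOn_Ioi 0 (by positivity)).const_mul _
  refine Integrable.mono' hg ?_ ?_
  · exact (aemeasurable_restrict_of_antitoneOn measurableSet_Ioi hanti).aestronglyMeasurable
  · rw [ae_restrict_iff' measurableSet_Ioi]
    filter_upwards with y hy
    have hy' : (0 : ℝ) < y := hy
    rw [Real.norm_of_nonneg (hq0 _ (Real.exp_pos _) (by rw [Real.exp_lt_one_iff]; linarith [Real.exp_pos y]))]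
    exact hbig y hy'

end Pool.Agent.Y400.SE
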