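import Pool.Agent.Y400.SE.Chain

set_option autoImplicit false

namespace Pool.Agent.Y400.SE

open Pool.Agent.W823.SFP MeasureTheory ProbabilityTheory

variable {d : ℕ} {α lam β κ c C : ℝ} {μW μL : Measure ℝ}

/-- The values of a mark compatible with an edge whose probability is at most `Q`. -/
def Mset (Q : ℝ) : Set ℝ := {t | 1 ≤ Q ∨ t < Q}

theorem measurableSet_Mset (Q : ℝ) : MeasurableSet (Mset Q) := by
  unfold Mset
  by_cases h : 1 ≤ Q
  · simp [h]
  · simp only [h, false_or]; exact measurableSet_Iio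

theorem unif_Mset (Q : ℝ) :
    (volume : Measure ℝ).restrict (Set.Icc 0 1) (Mset Q) ≤ ENNReal.ofReal Q := by
  by_cases h : 1 ≤ Q
  · calc (volume : Measure ℝ).restrict (Set.Icc 0 1) (Mset Q)
        ≤ (volume : Measure ℝ).restrict (Set.Icc 0 1) Set.univ := measure_mono (Set.subset_univ _)
      _ = 1 := by simp
      _ ≤ ENNReal.ofReal Q := by rwa [ENNReal.one_le_ofReal]
  · have : Mset Q = Set.Iio Q := by
      ext t; simp [Mset, h]
    rw [this, unif_Iio Q (not_le.1 h).le]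

/-- Bound for the probability of an edge between vertices of classes `i` and `j`. -/
noncomputable def QQ (α lam β : ℝ) (i j : ℕ) (r e : ℝ) : ℝ :=
  max 1 lam * (th β (i + 1) * th β (j + 1) / r ^ α) ^ e

theorem joined_mark (h : Hyp d α lam β κ c C μW μL) {ω : Conf d} {x y : Site d}
    (hj : Joined α lam ω x y) {i j : ℕ} (hx0 : 0 ≤ wt ω x) (hy0 : 0 ≤ wt ω y)
    (hx : wt ω x ≤ th β (i + 1)) (hy : wt ω y ≤ th β (j + 1)) {e : ℝ} (he0 : 0 ≤ e) (he1 : e ≤ 1) :
    mark ω x y ∈ Mset (QQ α lam β i j (nrm (y - x)) e) := by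
  unfold Mset QQ
  have hlam := h.hlam
  have hα := h.apos
  have hβ := h.hβ
  have hthi := one_le_th hβ (i + 1)
  have hthj := one_le_th hβ (j + 1)
  have hm1 : 1 ≤ max 1 lam := le_max_left _ _
  rcases hj with hj | ⟨hj1, hj2⟩
  · left
    rw [nrm_sub_comm, hj, Real.one_rpow, div_one]
    have : 1 ≤ (th β (i + 1) * th β (j + 1)) ^ e :=
      Real.one_le_rpow (one_le_mul_of_one_le_of_one_le hthi hthj) he0
    exact one_le_mul_of_one_le_of_one_le hm1 this
  · right
    rw [nrm_sub_comm] at hj1 hj2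
    set r := nrm (y - x) with hr
    have hrα : 0 < r ^ α := Real.rpow_pos_of_pos (by linarith) _
    set A := lam * wt ω x * wt ω y / r ^ α with hA
    have hA0 : 0 ≤ A := by positivity
    have hAle : A ≤ lam * (th β (i + 1) * th β (j + 1) / r ^ α) := by
      rw [hA, mul_assoc, mul_div_assoc]
      have : wt ω x * wt ω y ≤ th β (i + 1) * th β (j + 1) :=
        mul_le_mul hx hy hy0 (by linarith)
      gcongr
    refine lt_of_lt_of_le hj2 ?_
    have h1 : 1 - Real.exp (-A) ≤ A ^ e := by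
      rcases le_total A 1 with hA1 | hA1
      · have h2 : 1 - Real.exp (-A) ≤ A := by linarith [Real.add_one_le_exp (-A)]
        refine h2.trans ?_
        calc A = A ^ (1 : ℝ) := (Real.rpow_one A).symm
          _ ≤ A ^ e := by
            rcases hA0.eq_or_lt with hz | hz
            · rw [← hz, Real.zero_rpow one_ne_zero]; positivity
            · exact Real.rpow_le_rpow_of_exponent_ge hz hA1 he1
      · have h2 : 1 - Real.exp (-A) ≤ 1 := by linarith [Real.exp_pos (-A)]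
        exact h2.trans (Real.one_le_rpow hA1 he0)
    refine h1.trans ?_
    calc A ^ e ≤ (lam * (th β (i + 1) * th β (j + 1) / r ^ α)) ^ e :=
          Real.rpow_le_rpow hA0 hAle he0
      _ = lam ^ e * (th β (i + 1) * th β (j + 1) / r ^ α) ^ e :=
          Real.mul_rpow hlam.le (by positivity)
      _ ≤ max 1 lam * (th β (i + 1) * th β (j + 1) / r ^ α) ^ e := by
          apply mul_le_mul_of_nonneg_right _ (by positivity)
          calc lam ^ e ≤ (max 1 lam) ^ e := Real.rpow_le_rpow hlam.le (le_max_right _ _) he0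
            _ ≤ (max 1 lam) ^ (1 : ℝ) := Real.rpow_le_rpow_of_exponent_le hm1 he1
            _ = _ := Real.rpow_one _

/-- The position after the steps `x`. -/
def pos {k : ℕ} (p : Fin (k + 1) → Site d × ℕ) : Fin (k + 2) → Site d :=
  Fin.partialSum fun l => (p l).1

/-- The classes. -/
def cls {k : ℕ} (p : Fin (k + 1) → Site d × ℕ) (jl : ℕ) : Fin (k + 2) → ℕ :=
  Fin.snoc (α := fun _ => ℕ) (fun l => (p l).2) jl

theorem pos_succ {k : ℕ} (p : Fin (k + 1) → Site d × ℕ) (l : Fin (k + 1)) :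
    pos p l.succ = pos p l.castSucc + (p l).1 := Fin.partialSum_succ _ _

theorem cls_castSucc {k : ℕ} (p : Fin (k + 1) → Site d × ℕ) (jl : ℕ) (l : Fin (k + 1)) :
    cls p jl l.castSucc = (p l).2 := by simp [cls]

theorem cls_last {k : ℕ} (p : Fin (k + 1) → Site d × ℕ) (jl : ℕ) :
    cls p jl (Fin.last (k + 1)) = jl := by simp [cls]

/-- The exponent of the `l`-th step. -/
noncomputable def expo (k : ℕ) (η θ0 : ℝ) (l : Fin (k + 1)) : ℝ :=
  if l = Fin.last k then η + θ0 else η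

noncomputable def psi (ρ s : ℝ) (j : ℕ) : ℝ := s ^ 2 * (2 : ℝ) ^ (-(ρ * j))

/-- The bound for the edge-weights used from a vertex of class `j`. -/
noncomputable def cst (κ ρ s : ℝ) (j : ℕ) : ℝ := psi ρ s j ^ (1 / κ)

/-- The event that the path with steps and classes `p` is cheap and ends with a long step. -/
def Ev (d : ℕ) (α lam β κ η θ0 ρ s S : ℝ) (J : ℕ) (k : ℕ) (p : Fin (k + 1) → Site d × ℕ)
    (jl : ℕ) : Set (Conf d) :=
  {ω | Function.Injective (pos p) ∧ (∀ l, (p l).2 ≤ J) ∧ S ≤ nrm (p (Fin.last k)).1 ∧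
    (∀ l, th β (cls p jl l) ≤ wt ω (pos p l)) ∧
    (∀ l : Fin (k + 1), mark ω (pos p l.castSucc) (pos p l.succ) ∈
      Mset (QQ α lam β (cls p jl l.castSucc) (cls p jl l.succ) (nrm (p l).1) (expo k η θ0 l))) ∧
    ∀ l : Fin (k + 1), cost ω (pos p l.castSucc) (pos p l.succ) ≤ cst κ ρ s (p l).2}

theorem Ev_prob_le (h : Hyp d α lam β κ c C μW μL) (η θ0 ρ s S : ℝ) (J : ℕ) (k : ℕ)
    (p : Fin (k + 1) → Site d × ℕ) (jl : ℕ) (hinj : Function.Injective (pos p)) :
    law d μW μL (Ev d α lam β κ η θ0 ρ s S J k p jl) ≤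
      (∏ l, ENNReal.ofReal (C * (2 : ℝ) ^ (-(cls p jl l : ℝ)))) *
      ((∏ l : Fin (k + 1), ENNReal.ofReal (QQ α lam β (cls p jl l.castSucc) (cls p jl l.succ)
        (nrm (p l).1) (expo k η θ0 l))) *
      ∏ l : Fin (k + 1), ENNReal.ofReal (C * psi ρ s (p l).2)) := by
  have := isProb h
  let g : Fin (k + 2) ⊕ (Fin (k + 1) ⊕ Fin (k + 1)) → Idx d :=
    Sum.elim (fun l => Sum.inl (pos p l))
      (Sum.elim (fun l => Sum.inr (Sum.inl s(pos p l.castSucc, pos p l.succ)))
        (fun l => Sum.inr (Sum.inr s(pos p l.castSucc, pos p l.succ))))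
  have hedge : ∀ l l' : Fin (k + 1), s(pos p l.castSucc, pos p l.succ) =
      s(pos p l'.castSucc, pos p l'.succ) → l = l' := by
    intro l l' hs
    rw [Sym2.eq_iff] at hs
    rcases hs with ⟨h1, -⟩ | ⟨h1, h2⟩
    · exact Fin.castSucc_injective _ (hinj h1)
    · have h1 := congrArg Fin.val (hinj h1)
      have h2 := congrArg Fin.val (hinj h2)
      simp at h1 h2
      omega
  have hg : Function.Injective g := by
    rintro (l | l | l) (l' | l' | l') hll <;> simp only [g, Sum.elim_inl, Sum.elim_inr,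
      Sum.inl.injEq, Sum.inr.injEq, reduceCtorEq] at hll ⊢
    · exact hinj hll
    · exact hedge _ _ hll
    · exact hedge _ _ hll
  let T : Fin (k + 2) ⊕ (Fin (k + 1) ⊕ Fin (k + 1)) → Set ℝ :=
    Sum.elim (fun l => Set.Ici (th β (cls p jl l)))
      (Sum.elim (fun l => Mset (QQ α lam β (cls p jl l.castSucc) (cls p jl l.succ)
        (nrm (p l).1) (expo k η θ0 l)))
        (fun l => Set.Iic (cst κ ρ s (p l).2)))
  have hT : ∀ i, MeasurableSet (T i) := by
    rintro (l | l | l)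
    · exact measurableSet_Ici
    · exact measurableSet_Mset _
    · exact measurableSet_Iic
  have hsub : Ev d α lam β κ η θ0 ρ s S J k p jl ⊆ {ω | ∀ i, ω (g i) ∈ T i} := by
    rintro ω ⟨-, -, -, h4, h5, h6⟩ (l | l | l)
    · exact h4 l
    · exact h5 l
    · exact h6 l
  refine (measure_mono hsub).trans ?_
  rw [law, cyl_prob (marg μW μL) g hg T hT, Fintype.prod_sum_type, Fintype.prod_sum_type]
  have hpsi : ∀ l : Fin (k + 1), 0 ≤ psi ρ s (p l).2 := fun l => by unfold psi; positivity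
  have hcst : ∀ l : Fin (k + 1), 0 ≤ cst κ ρ s (p l).2 := fun l => by
    unfold cst; have := hpsi l; positivity
  have hpow : ∀ l : Fin (k + 1), cst κ ρ s (p l).2 ^ κ = psi ρ s (p l).2 := fun l => by
    unfold cst
    rw [← Real.rpow_mul (hpsi l), one_div_mul_cancel h.hκ.ne', Real.rpow_one]
  gcongr with l _ l _ l _
  · exact h.tail_le _
  · exact unif_Mset _
  · rw [← hpow l]
    exact h.upL _ (hcst l)

/-- The weight of a step `(x, j)`: the displacement and the class of the starting vertex. -/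
noncomputable def Gr (α lam β η ρ s : ℝ) {d : ℕ} (q : Site d × ℕ) : ℝ :=
  nrm q.1 ^ (-(α * η)) * (max 1 lam * s ^ 2 * th β (q.2 + 1) ^ (2 * η) * (2 : ℝ) ^ (-(q.2 : ℝ)) *
    (2 : ℝ) ^ (-(ρ * q.2)))

/-- The gain due to the long step. -/
noncomputable def Gam (α β θ0 S : ℝ) (J : ℕ) : ℝ := (th β (J + 1) / S ^ α) ^ θ0

/-- The weight of the class of the last vertex. -/
noncomputable def wr (β η θ0 : ℝ) (j : ℕ) : ℝ := (2 : ℝ) ^ (-(j : ℝ)) * th β (j + 1) ^ (η + θ0)

theorem prod_bound (h : Hyp d α lam β κ c C μW μL) {η θ0 ρ s S : ℝ} {J : ℕ} {k : ℕ}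
    (hη : 0 ≤ η) (hθ : 0 ≤ θ0) (hS : 0 < S)
    (p : Fin (k + 1) → Site d × ℕ) (jl : ℕ) (hx : ∀ l, (p l).1 ≠ 0) (hJ : ∀ l, (p l).2 ≤ J)
    (hSx : S ≤ nrm (p (Fin.last k)).1) :
    (∏ l, (2 : ℝ) ^ (-(cls p jl l : ℝ))) *
      ((∏ l : Fin (k + 1), QQ α lam β (cls p jl l.castSucc) (cls p jl l.succ)
        (nrm (p l).1) (expo k η θ0 l)) *
      ∏ l : Fin (k + 1), psi ρ s (p l).2) ≤
      (∏ l, Gr α lam β η ρ s (p l)) * (Gam α β θ0 S J * wr β η θ0 jl) := by
  have hβ := h.hβ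
  have hα := h.apos
  have hth : ∀ j, 0 < th β j := fun j => th_pos β j
  have hCL : 0 < max 1 lam := lt_of_lt_of_le one_pos (le_max_left _ _)
  have hn : ∀ l, 1 ≤ nrm (p l).1 := fun l => one_le_nrm (hx l)
  have hn0 : ∀ l, 0 < nrm (p l).1 := fun l => by linarith [hn l]
  set X : ℝ := Gam α β θ0 S J * th β (jl + 1) ^ θ0 with hX
  have hX0 : 0 ≤ X := by unfold X Gam; have := hth (J + 1); have := hth (jl + 1); positivity
  have hQ : ∀ l : Fin (k + 1), QQ α lam β (cls p jl l.castSucc) (cls p jl l.succ)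
      (nrm (p l).1) (expo k η θ0 l) ≤ (max 1 lam * nrm (p l).1 ^ (-(α * η))) *
        (th β (cls p jl l.castSucc + 1) ^ η * th β (cls p jl l.succ + 1) ^ η) *
        (if l = Fin.last k then X else 1) := by
    intro l
    have h1 := hth (cls p jl l.castSucc + 1)
    have h2 := hth (cls p jl l.succ + 1)
    have h3 := hn0 l
    have base : (th β (cls p jl l.castSucc + 1) * th β (cls p jl l.succ + 1) / nrm (p l).1 ^ α) ^ η
        = nrm (p l).1 ^ (-(α * η)) * (th β (cls p jl l.castSucc + 1) ^ η * th β (cls p jl l.succ + 1) ^ η) := by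
      rw [Real.div_rpow (by positivity) (by positivity), Real.mul_rpow h1.le h2.le,
        ← Real.rpow_mul h3.le, Real.rpow_neg h3.le]
      field_simp
    unfold QQ expo
    split_ifs with hl
    · subst hl
      rw [Real.rpow_add (by positivity), base]
      have e1 : (th β (cls p jl (Fin.last k).castSucc + 1) * th β (cls p jl (Fin.last k).succ + 1) /
          nrm (p (Fin.last k)).1 ^ α) ^ θ0 ≤ X := by
        rw [hX]
        unfold Gam
        rw [← Real.mul_rpow (by have := hth (J+1); positivity) (hth _).le]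
        apply Real.rpow_le_rpow (by positivity) _ hθ
        rw [Fin.succ_last, cls_last, cls_castSucc, div_mul_eq_mul_div]
        have e2 : th β ((p (Fin.last k)).2 + 1) ≤ th β (J + 1) := th_mono hβ (by have := hJ (Fin.last k); omega)
        have e3 : S ^ α ≤ nrm (p (Fin.last k)).1 ^ α := Real.rpow_le_rpow hS.le hSx hα.le
        have := hth (jl + 1)
        have := hth (J + 1)
        have : 0 < S ^ α := Real.rpow_pos_of_pos hS _
        gcongr
      calc _ ≤ max 1 lam * (nrm (p (Fin.last k)).1 ^ (-(α * η)) *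
            (th β (cls p jl (Fin.last k).castSucc + 1) ^ η * th β (cls p jl (Fin.last k).succ + 1) ^ η) * X) := by
            gcongr
        _ = _ := by ring
    · rw [base, mul_one]
      apply le_of_eq; ring
  have hQ0 : ∀ l : Fin (k + 1), 0 ≤ QQ α lam β (cls p jl l.castSucc) (cls p jl l.succ)
      (nrm (p l).1) (expo k η θ0 l) := by
    intro l
    have h1 := hth (cls p jl l.castSucc + 1)
    have h2 := hth (cls p jl l.succ + 1)
    have h3 := hn0 l
    unfold QQ; positivity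
  have hψ : ∀ j, 0 ≤ psi ρ s j := fun j => by unfold psi; positivity
  have hprodQ : ∏ l : Fin (k + 1), QQ α lam β (cls p jl l.castSucc) (cls p jl l.succ)
      (nrm (p l).1) (expo k η θ0 l) ≤ (∏ l : Fin (k + 1), (max 1 lam * nrm (p l).1 ^ (-(α * η)))) *
      ((∏ l : Fin (k + 1), th β (cls p jl l.castSucc + 1) ^ η) *
        ∏ l : Fin (k + 1), th β (cls p jl l.succ + 1) ^ η) * X := by
    calc _ ≤ ∏ l : Fin (k + 1), ((max 1 lam * nrm (p l).1 ^ (-(α * η))) *
        (th β (cls p jl l.castSucc + 1) ^ η * th β (cls p jl l.succ + 1) ^ η) *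
        (if l = Fin.last k then X else 1)) := Finset.prod_le_prod (fun l _ => hQ0 l) fun l _ => hQ l
      _ = _ := by
        rw [Finset.prod_mul_distrib, Finset.prod_mul_distrib, Finset.prod_ite_eq']
        rw [if_pos (Finset.mem_univ _)]
        congr 2
        exact Finset.prod_mul_distrib
  have hA' : ∏ l : Fin (k + 1), th β (cls p jl l.succ + 1) ^ η ≤
      (∏ l : Fin (k + 1), th β (cls p jl l.castSucc + 1) ^ η) * th β (jl + 1) ^ η := by
    have e1 := Fin.prod_univ_succ (fun l : Fin (k + 2) => th β (cls p jl l + 1) ^ η)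
    have e2 := Fin.prod_univ_castSucc (fun l : Fin (k + 2) => th β (cls p jl l + 1) ^ η)
    rw [cls_last] at e2
    rw [← e2, e1]
    have e3 : 1 ≤ th β (cls p jl 0 + 1) ^ η := Real.one_le_rpow (one_le_th hβ _) hη
    have e4 : 0 ≤ ∏ l : Fin (k + 1), th β (cls p jl l.succ + 1) ^ η :=
      Finset.prod_nonneg fun l _ => by have := hth (cls p jl l.succ + 1); positivity
    nlinarith
  have hA0 : 0 ≤ ∏ l : Fin (k + 1), th β (cls p jl l.castSucc + 1) ^ η :=
    Finset.prod_nonneg fun l _ => by have := hth (cls p jl l.castSucc + 1); positivity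
  have hB0 : 0 ≤ ∏ l : Fin (k + 1), (max 1 lam * nrm (p l).1 ^ (-(α * η))) :=
    Finset.prod_nonneg fun l _ => by have := hn0 l; positivity
  have h2cls : ∏ l, (2 : ℝ) ^ (-(cls p jl l : ℝ)) =
      (∏ l : Fin (k + 1), (2 : ℝ) ^ (-((p l).2 : ℝ))) * (2 : ℝ) ^ (-(jl : ℝ)) := by
    rw [Fin.prod_univ_castSucc, cls_last]
    simp_rw [cls_castSucc]
  have h2pos : 0 ≤ ∏ l : Fin (k + 1), (2 : ℝ) ^ (-((p l).2 : ℝ)) :=
    Finset.prod_nonneg fun l _ => by positivity
  rw [h2cls]
  simp_rw [cls_castSucc] at hprodQ hA' hA0 ⊢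
  have hψ0 : 0 ≤ ∏ l : Fin (k + 1), psi ρ s (p l).2 := Finset.prod_nonneg fun l _ => hψ _
  have hthjl := hth (jl + 1)
  have e5 : ∏ l : Fin (k + 1), Gr α lam β η ρ s (p l) =
      (∏ l : Fin (k + 1), (2 : ℝ) ^ (-((p l).2 : ℝ))) *
      (∏ l : Fin (k + 1), (max 1 lam * nrm (p l).1 ^ (-(α * η)))) *
      ((∏ l : Fin (k + 1), th β ((p l).2 + 1) ^ η) *
      (∏ l : Fin (k + 1), th β ((p l).2 + 1) ^ η)) *
      ∏ l : Fin (k + 1), psi ρ s (p l).2 := by
    rw [← Finset.prod_mul_distrib, ← Finset.prod_mul_distrib, ← Finset.prod_mul_distrib,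
      ← Finset.prod_mul_distrib]
    apply Finset.prod_congr rfl
    intro l _
    unfold Gr psi
    rw [show 2 * η = η + η by ring, Real.rpow_add (hth _)]
    ring
  rw [e5]
  generalize (∏ l : Fin (k + 1), (2 : ℝ) ^ (-((p l).2 : ℝ))) = P2 at h2pos ⊢
  generalize (∏ l : Fin (k + 1), QQ α lam β (p l).2 (cls p jl l.succ) (nrm (p l).1) (expo k η θ0 l)) = PQ at hprodQ ⊢
  generalize (∏ l : Fin (k + 1), (max 1 lam * nrm (p l).1 ^ (-(α * η)))) = PB at hB0 hprodQ ⊢
  generalize (∏ l : Fin (k + 1), th β ((p l).2 + 1) ^ η) = PA at hA0 hA' hprodQ ⊢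
  generalize (∏ l : Fin (k + 1), th β (cls p jl l.succ + 1) ^ η) = PA' at hA' hprodQ ⊢
  generalize (∏ l : Fin (k + 1), psi ρ s (p l).2) = PP at hψ0 ⊢
  have h2jl : 0 < (2 : ℝ) ^ (-(jl : ℝ)) := by positivity
  have hfin : PQ ≤ PB * (PA * (PA * th β (jl + 1) ^ η)) * X := by
    refine hprodQ.trans ?_
    gcongr
  calc P2 * (2 : ℝ) ^ (-(jl : ℝ)) * (PQ * PP)
      ≤ P2 * (2 : ℝ) ^ (-(jl : ℝ)) * ((PB * (PA * (PA * th β (jl + 1) ^ η)) * X) * PP) := by
        gcongr
    _ = _ := by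
        rw [hX]
        unfold wr
        rw [Real.rpow_add hthjl]
        ring

/-- The weight of a step, with the constant of the laws. -/
noncomputable def GrC (α lam β C η ρ s : ℝ) {d : ℕ} (q : Site d × ℕ) : ℝ :=
  nrm q.1 ^ (-(α * η)) * (C * C * max 1 lam * s ^ 2 * th β (q.2 + 1) ^ (2 * η) *
    (2 : ℝ) ^ (-(q.2 : ℝ)) * (2 : ℝ) ^ (-(ρ * q.2)))

theorem prod_boundC (h : Hyp d α lam β κ c C μW μL) {η θ0 ρ s S : ℝ} {J : ℕ} {k : ℕ}
    (hη : 0 ≤ η) (hθ : 0 ≤ θ0) (hS : 0 < S)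
    (p : Fin (k + 1) → Site d × ℕ) (jl : ℕ) (hx : ∀ l, (p l).1 ≠ 0) (hJ : ∀ l, (p l).2 ≤ J)
    (hSx : S ≤ nrm (p (Fin.last k)).1) :
    (∏ l, (C * (2 : ℝ) ^ (-(cls p jl l : ℝ)))) *
      ((∏ l : Fin (k + 1), QQ α lam β (cls p jl l.castSucc) (cls p jl l.succ)
        (nrm (p l).1) (expo k η θ0 l)) *
      ∏ l : Fin (k + 1), (C * psi ρ s (p l).2)) ≤
      (∏ l, GrC α lam β C η ρ s (p l)) * (Gam α β θ0 S J * (C * wr β η θ0 jl)) := by
  have hC : 0 ≤ C := by linarith [h.hC]
  have hb := prod_bound h (ρ := ρ) (s := s) hη hθ hS p jl hx hJ hSx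
  have e1 : (∏ l, GrC α lam β C η ρ s (p l)) = (C * C) ^ (k + 1) * ∏ l, Gr α lam β η ρ s (p l) := by
    have : ∀ l, GrC α lam β C η ρ s (p l) = (C * C) * Gr α lam β η ρ s (p l) := by
      intro l; unfold GrC Gr; ring
    rw [Finset.prod_congr rfl fun l _ => this l, Finset.prod_mul_distrib, Finset.prod_const,
      Finset.card_univ, Fintype.card_fin]
  rw [e1, Finset.prod_mul_distrib, Finset.prod_mul_distrib, Finset.prod_const, Finset.prod_const,
    Finset.card_univ, Finset.card_univ, Fintype.card_fin, Fintype.card_fin]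
  calc _ = C ^ (k + 2) * C ^ (k + 1) * ((∏ l, (2 : ℝ) ^ (-(cls p jl l : ℝ))) *
      ((∏ l : Fin (k + 1), QQ α lam β (cls p jl l.castSucc) (cls p jl l.succ)
        (nrm (p l).1) (expo k η θ0 l)) *
      ∏ l : Fin (k + 1), psi ρ s (p l).2)) := by ring
    _ ≤ C ^ (k + 2) * C ^ (k + 1) * ((∏ l, Gr α lam β η ρ s (p l)) * (Gam α β θ0 S J * wr β η θ0 jl)) :=
        mul_le_mul_of_nonneg_left hb (by positivity)
    _ = _ := by rw [mul_pow]; ring

end Pool.Agent.Y400.SE
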