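import Pool.Agent.Y400.SE.Main

set_option autoImplicit false

namespace Pool.Agent.Y400.SE

open Pool.Agent.W823.SFP MeasureTheory ProbabilityTheory Filter

variable {d : ℕ} {α lam β κ c C : ℝ} {μW μL : Measure ℝ}

theorem three_add_exp_le {s : ℝ} (hs : 0 ≤ s) : 3 + Real.exp s ≤ Real.exp (s + 2) := by
  rw [Real.exp_add]
  have h2 : (4 : ℝ) ≤ Real.exp 2 := by
    have := Real.add_one_le_exp (1 : ℝ)
    have h3 : Real.exp 2 = Real.exp 1 * Real.exp 1 := by rw [← Real.exp_add]; norm_num
    rw [h3]; nlinarith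
  have h4 : 1 ≤ Real.exp s := Real.one_le_exp hs
  nlinarith

theorem Gam_le (h : Hyp d α lam β κ c C μW μL) {s : ℝ} (hs : 1 ≤ s) {n : ℕ} (hn : 0 < n) :
    Gam α β (theta0 d α β) (Real.exp s / n) (Jf d α β s) ≤
      Real.exp (theta0 d α β * ((1 + 2 * dm d α β) / β + α * n - (α - d / β) / 2 * s)) := by
  have hα := h.apos
  have hβ := h.hβ
  have hd := h.dpos
  have hdm := h.dm_pos
  have hρ1 := h.rho_lt
  have hdα : (d : ℝ) / α < 1 := (div_lt_one hα).2 h.hα
  have hθ0 : 0 ≤ theta0 d α β := by
    unfold theta0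
    apply le_min
    · have : 0 < 1 - rho d α β := by linarith
      positivity
    · linarith
  have hn' : (0 : ℝ) < n := by exact_mod_cast hn
  unfold Gam
  have hth := th_pos β (Jf d α β s + 1)
  have h1 : th β (Jf d α β s + 1) ≤ Real.exp (1 / β + (s + 2) * (dm d α β / β)) := by
    unfold th
    push_cast
    rw [add_div, Real.rpow_add (by norm_num), Real.exp_add, mul_comm]
    apply mul_le_mul _ _ (by positivity) (Real.exp_pos _).le
    · rw [Real.rpow_def_of_pos (by norm_num)]
      apply Real.exp_le_exp.2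
      have hl2 : Real.log 2 ≤ 1 := by have := Real.log_two_lt_d9; linarith
      have : 0 ≤ 1 / β := by positivity
      nlinarith
    · have hlb : 0 ≤ Real.logb 2 (3 + Real.exp s) :=
        Real.logb_nonneg (by norm_num) (by linarith [Real.exp_pos s])
      have hJ : (Jf d α β s : ℝ) ≤ dm d α β * Real.logb 2 (3 + Real.exp s) :=
        Nat.floor_le (by positivity)
      calc (2 : ℝ) ^ ((Jf d α β s : ℝ) / β) ≤ (2 : ℝ) ^ (Real.logb 2 (3 + Real.exp s) * (dm d α β / β)) := by
            apply Real.rpow_le_rpow_of_exponent_le (by norm_num)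
            rw [mul_div_assoc', mul_comm (Real.logb _ _)]
            gcongr
        _ = (3 + Real.exp s) ^ (dm d α β / β) := by
            rw [Real.rpow_mul (by norm_num), Real.rpow_logb (by norm_num) (by norm_num) (by positivity)]
        _ ≤ (Real.exp (s + 2)) ^ (dm d α β / β) :=
            Real.rpow_le_rpow (by positivity) (three_add_exp_le (by linarith)) (by positivity)
        _ = _ := by rw [← Real.exp_mul]
  have h2 : Real.exp (α * s - α * n) ≤ (Real.exp s / n) ^ α := by
    rw [Real.div_rpow (Real.exp_pos _).le hn'.le, ← Real.exp_mul, Real.exp_sub, mul_comm s α]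
    apply div_le_div_of_nonneg_left (Real.exp_pos _).le (by positivity)
    calc (n : ℝ) ^ α ≤ (Real.exp n) ^ α := by
          apply Real.rpow_le_rpow hn'.le _ hα.le
          linarith [Real.add_one_le_exp (n : ℝ)]
      _ = Real.exp (α * n) := by rw [← Real.exp_mul, mul_comm]
  have h3 : th β (Jf d α β s + 1) / (Real.exp s / n) ^ α ≤
      Real.exp ((1 + 2 * dm d α β) / β + α * n - (α - d / β) / 2 * s) := by
    have h20 := Real.exp_pos (α * s - α * n)
    calc th β (Jf d α β s + 1) / (Real.exp s / n) ^ α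
        ≤ Real.exp (1 / β + (s + 2) * (dm d α β / β)) / Real.exp (α * s - α * n) := by gcongr
      _ = Real.exp ((1 / β + (s + 2) * (dm d α β / β)) - (α * s - α * n)) := by rw [← Real.exp_sub]
      _ = _ := by
          congr 1
          unfold dm
          field_simp
          ring
  calc _ ≤ (Real.exp ((1 + 2 * dm d α β) / β + α * n - (α - d / β) / 2 * s)) ^ theta0 d α β :=
        Real.rpow_le_rpow (by positivity) h3 hθ0
    _ = _ := by rw [← Real.exp_mul, mul_comm]

/-- The scale belonging to `n` steps. -/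
noncomputable def sc (A : ℝ) (n : ℕ) : ℝ := A * (n * Real.log n)

theorem exists_A (cc K1 K2 : ℝ) (hcc : 0 < cc) (hK1 : 0 < K1) :
    ∃ A : ℝ, 1 ≤ A ∧ K1 * Real.log A + K2 ≤ cc * A := by
  have h1 := (Real.isLittleO_log_id_atTop.def' (show 0 < cc / (2 * K1) by positivity)).bound
  have h2 := h1.and ((eventually_ge_atTop (1 : ℝ)).and (eventually_ge_atTop (2 * K2 / cc)))
  obtain ⟨A, hA1, hA2, hA3⟩ := h2.exists
  refine ⟨A, hA2, ?_⟩
  simp only [id] at hA1
  rw [Real.norm_of_nonneg (Real.log_nonneg hA2), Real.norm_of_nonneg (by linarith)] at hA1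
  have h4 : K1 * Real.log A ≤ cc / 2 * A := by
    calc K1 * Real.log A ≤ K1 * (cc / (2 * K1) * A) := by gcongr
      _ = cc / 2 * A := by field_simp
  have h5 : K2 ≤ cc / 2 * A := by
    rw [div_le_iff₀ hcc] at hA3
    linarith
  linarith

/-- Almost surely, for large `n` no cheap path with at most `n` steps has a long step at scale
`exp (A n log n)`. -/
theorem ae_not_EvU (h : Hyp d α lam β κ c C μW μL) : ∃ A : ℝ, 1 ≤ A ∧
    ∀ᵐ ω ∂(law d μW μL), ∀ᶠ n : ℕ in atTop,
      ω ∉ EvU d α lam β κ (etaf d α (sc A n)) (theta0 d α β) (rho d α β) (sc A n)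
        (Real.exp (sc A n) / n) (Jf d α β (sc A n)) n := by
  have hα := h.apos
  have hβ := h.hβ
  have hd := h.dpos
  have hdm := h.dm_pos
  have hρ := h.rho_pos
  have hρ1 := h.rho_lt
  have hdα : (d : ℝ) / α < 1 := (div_lt_one hα).2 h.hα
  have hCL1 : 1 ≤ max 1 lam := le_max_left _ _
  have hC1 := h.hC
  have hC0 : 0 < C := by linarith
  have hθ0 : 0 ≤ theta0 d α β := by
    unfold theta0
    apply le_min
    · have : 0 < 1 - rho d α β := by linarith
      positivity
    · linarith
  have hθpos : 0 < theta0 d α β := by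
    unfold theta0
    apply lt_min
    · have : 0 < 1 - rho d α β := by linarith
      positivity
    · linarith
  set δ : ℝ := (1 - rho d α β) / 4 with hδ
  have hδ0 : 0 < δ := by rw [hδ]; linarith
  set CJ : ℝ := dm d α β * (9 / 2) with hCJ
  have hCJ0 : 0 < CJ := by positivity
  set B : ℝ := 10 ^ d * ((CJ + 1) * (C * C * max 1 lam * (2 : ℝ) ^ (4 + 2 * CJ))) with hB
  have hB1 : 1 ≤ B := by
    rw [hB]
    exact one_le_mul_of_one_le_of_one_le (one_le_pow₀ (by norm_num))
      (one_le_mul_of_one_le_of_one_le (by linarith)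
        (one_le_mul_of_one_le_of_one_le
          (one_le_mul_of_one_le_of_one_le (one_le_mul_of_one_le_of_one_le hC1 hC1) hCL1)
          (Real.one_le_rpow (by norm_num) (by positivity))))
  have hc1 : 0 < (α - d / β) / 2 := by
    have : d / β < α := by rw [div_lt_iff₀ hβ]; exact h.hγ1
    linarith
  set C3' : ℝ := theta0 d α β * ((1 + 2 * dm d α β) / β) with hC3'
  set cc : ℝ := theta0 d α β * ((α - d / β) / 2) with hcc
  have hcc0 : 0 < cc := by positivity
  have hlB : 0 ≤ Real.log B := Real.log_nonneg hB1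
  obtain ⟨A, hA1, hA⟩ := exists_A cc ((d : ℝ) + 3)
    (2 + Real.log B + ((d : ℝ) + 3) * 2 + theta0 d α β * α) hcc0 (by positivity)
  have hA0 : 0 < A := by linarith
  have hlA : 0 ≤ Real.log A := Real.log_nonneg hA1
  refine ⟨A, hA1, ?_⟩
  obtain ⟨n1, hn1⟩ := exists_nat_gt (2 / δ)
  set n0 : ℕ := max 3 n1 with hn0
  have hbound : ∀ n : ℕ, n0 ≤ n → law d μW μL
      (EvU d α lam β κ (etaf d α (sc A n)) (theta0 d α β) (rho d α β) (sc A n)
        (Real.exp (sc A n) / n) (Jf d α β (sc A n)) n) ≤
      ENNReal.ofReal (Real.exp C3' * Real.exp (-(n : ℝ))) * (ENNReal.ofReal C * Wc δ) := by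
    intro n hn
    have hn3 : 3 ≤ n := (le_max_left _ _).trans hn
    have hnn1 : n1 ≤ n := (le_max_right _ _).trans hn
    have hnpos : 0 < n := by omega
    have hn' : (0 : ℝ) < n := by exact_mod_cast hnpos
    have hn3' : (3 : ℝ) ≤ n := by exact_mod_cast hn3
    have hL1 : 1 ≤ Real.log n := by
      rw [Real.le_log_iff_exp_le hn']
      have := Real.exp_one_lt_d9
      linarith
    set L : ℝ := Real.log n with hL
    have hL0 : 0 < L := by linarith
    set s : ℝ := sc A n with hs
    have hsdef : s = A * (n * L) := rfl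
    have hns : (n : ℝ) ≤ s := by
      rw [hsdef]
      have : (n : ℝ) * 1 ≤ n * L := by gcongr
      nlinarith
    have hs1 : 1 ≤ s := by linarith
    have hs0 : 0 < s := by linarith
    have hlogs : Real.log s ≤ Real.log A + 2 * L := by
      rw [hsdef, Real.log_mul hA0.ne' (by positivity), Real.log_mul hn'.ne' hL0.ne', ← hL]
      have : Real.log L ≤ L - 1 := Real.log_le_sub_one_of_pos hL0
      linarith
    have hS : 0 < Real.exp s / n := by positivity
    have ha0 : 0 < 1 / s := by positivity
    have ha1 : 1 / s ≤ 1 := by rw [div_le_one hs0]; exact hs1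
    have hη0 : 0 ≤ etaf d α s := by unfold etaf; positivity
    have hηa : α * etaf d α s = d * (1 + 1 / s) := by unfold etaf; field_simp
    have hq : (etaf d α s + theta0 d α β) / β ≤ 1 - δ := by
      rw [div_le_iff₀ hβ]
      have h1 : theta0 d α β ≤ β * ((1 - rho d α β) / 2) / 4 := min_le_left _ _
      have h2 : etaf d α s = β * ((1 + rho d α β) / 2) * (1 + 1 / s) := by
        have hab := h.ab_pos
        unfold etaf rho; field_simp; ring
      have h3 : 1 / s ≤ δ / 2 := by
        rw [div_le_iff₀ hs0]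
        have h31 : (n1 : ℝ) ≤ n := by exact_mod_cast hnn1
        have h32 : 2 / δ < s := by linarith
        rw [div_lt_iff₀ hδ0] at h32
        linarith
      have h4 : β * ((1 + rho d α β) / 2) * (1 + 1 / s) ≤ β * ((1 + rho d α β) / 2) + β * (δ / 2) := by
        rw [mul_add, mul_one]
        have : β * ((1 + rho d α β) / 2) * (1 / s) ≤ β * (δ / 2) := by
          rw [mul_assoc]
          apply mul_le_mul_of_nonneg_left _ hβ.le
          calc (1 + rho d α β) / 2 * (1 / s) ≤ 1 * (1 / s) := by
                apply mul_le_mul_of_nonneg_right _ ha0.le; linarith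
            _ ≤ δ / 2 := by linarith
        linarith
      rw [h2]
      rw [hδ] at h4 ⊢
      nlinarith
    refine (EvU_prob h hη0 hθ0 hS ha0 ha1 hηa hδ0 hq hs1).trans ?_
    rw [← mul_assoc, ← mul_assoc]
    apply mul_le_mul' _ le_rfl
    set J := Jf d α β s with hJ
    have hJs : (J : ℝ) ≤ CJ * s := Jf_le h hs1
    set M : ℝ := (10 / (1 / s)) ^ d * ((J + 1) * (C * C * max 1 lam * s ^ 2 * (2 : ℝ) ^ (4 + 2 * (1 / s) * J))) with hM
    have hM0 : 0 < M := by positivity
    have hMle : M ≤ B * s ^ (d + 3) := by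
      rw [hM, hB]
      have e1 : (10 / (1 / s)) ^ d = 10 ^ d * s ^ d := by rw [← mul_pow]; congr 1; field_simp
      have e2 : (J : ℝ) + 1 ≤ (CJ + 1) * s := by linarith
      have e3 : (2 : ℝ) ^ (4 + 2 * (1 / s) * J) ≤ (2 : ℝ) ^ (4 + 2 * CJ) := by
        apply Real.rpow_le_rpow_of_exponent_le (by norm_num)
        have : 2 * (1 / s) * J ≤ 2 * CJ := by
          rw [mul_one_div, div_mul_eq_mul_div, div_le_iff₀ hs0]; linarith
        linarith
      rw [e1]
      calc 10 ^ d * s ^ d * (((J : ℝ) + 1) * (C * C * max 1 lam * s ^ 2 * (2 : ℝ) ^ (4 + 2 * (1 / s) * J)))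
          ≤ 10 ^ d * s ^ d * (((CJ + 1) * s) * (C * C * max 1 lam * s ^ 2 * (2 : ℝ) ^ (4 + 2 * CJ))) := by
            gcongr
        _ = _ := by ring
    have hMexp : M ≤ Real.exp (Real.log B + (d + 3) * (Real.log A + 2 * L)) := by
      refine hMle.trans ?_
      rw [Real.exp_add, Real.exp_log (by linarith)]
      apply mul_le_mul_of_nonneg_left _ (by linarith)
      calc s ^ (d + 3) = Real.exp ((d + 3) * Real.log s) := by
            rw [← Real.exp_log hs0, ← Real.exp_nat_mul, Real.exp_log hs0]; push_cast; ring_nf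
        _ ≤ _ := by
            apply Real.exp_le_exp.2
            gcongr
    have hMn : M ^ n ≤ Real.exp (n * (Real.log B + (d + 3) * (Real.log A + 2 * L))) := by
      rw [Real.exp_nat_mul]
      gcongr
    have hG := Gam_le h hs1 hnpos
    have hG0 : 0 ≤ Gam α β (theta0 d α β) (Real.exp s / n) J := by
      unfold Gam
      have := th_pos β (J + 1)
      positivity
    have hnexp : (n : ℝ) ≤ Real.exp n := by linarith [Real.add_one_le_exp (n : ℝ)]
    rw [← ENNReal.ofReal_natCast, ← ENNReal.ofReal_mul (by positivity), ← ENNReal.ofReal_mul (by positivity)]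
    apply ENNReal.ofReal_le_ofReal
    calc (n : ℝ) * M ^ n * Gam α β (theta0 d α β) (Real.exp s / n) J
        ≤ Real.exp n * Real.exp (n * (Real.log B + (d + 3) * (Real.log A + 2 * L))) *
          Real.exp (theta0 d α β * ((1 + 2 * dm d α β) / β + α * n - (α - d / β) / 2 * s)) := by
          gcongr
      _ ≤ Real.exp C3' * Real.exp (-(n : ℝ)) := by
          rw [← Real.exp_add, ← Real.exp_add, ← Real.exp_add]
          apply Real.exp_le_exp.2
          have hnL : (n : ℝ) ≤ n * L := by nlinarith
          have hnL0 : 0 ≤ (n : ℝ) * L := by positivity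
          have e1 : (n : ℝ) * (Real.log B + (d + 3) * (Real.log A + 2 * L)) ≤
              (n * L) * (Real.log B + (d + 3) * Real.log A + (d + 3) * 2) := by
            have e11 : (n : ℝ) * (Real.log B + (d + 3) * Real.log A) ≤
                (n * L) * (Real.log B + (d + 3) * Real.log A) := by
              apply mul_le_mul_of_nonneg_right hnL (by positivity)
            have e12 : (n : ℝ) * (Real.log B + (d + 3) * (Real.log A + 2 * L)) =
                (n : ℝ) * (Real.log B + (d + 3) * Real.log A) + (n * L) * ((d + 3) * 2) := by ring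
            have e13 : (n * L) * (Real.log B + (d + 3) * Real.log A + (d + 3) * 2) =
                (n * L) * (Real.log B + (d + 3) * Real.log A) + (n * L) * ((d + 3) * 2) := by ring
            rw [e12, e13]
            linarith
          have e2 : theta0 d α β * α * n ≤ theta0 d α β * α * (n * L) := by gcongr
          have e3 : (n * L) * (((d : ℝ) + 3) * Real.log A + (2 + Real.log B + ((d : ℝ) + 3) * 2 + theta0 d α β * α)) ≤
              (n * L) * (cc * A) := mul_le_mul_of_nonneg_left hA hnL0
          have e4 : theta0 d α β * ((1 + 2 * dm d α β) / β + α * n - (α - d / β) / 2 * s) =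
              C3' + theta0 d α β * α * n - (n * L) * (cc * A) := by
            rw [hC3', hcc, hsdef]; ring
          rw [e4]
          have e5 : (n * L) * (((d : ℝ) + 3) * Real.log A + (2 + Real.log B + ((d : ℝ) + 3) * 2 + theta0 d α β * α)) =
              (n * L) * (Real.log B + (d + 3) * Real.log A + (d + 3) * 2) + 2 * (n * L) +
                theta0 d α β * α * (n * L) := by ring
          rw [e5] at e3
          linarith
  have hsum : ∑' m : ℕ, law d μW μL
      (EvU d α lam β κ (etaf d α (sc A (m + n0 : ℕ))) (theta0 d α β) (rho d α β) (sc A (m + n0 : ℕ))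
        (Real.exp (sc A (m + n0 : ℕ)) / (m + n0 : ℕ)) (Jf d α β (sc A (m + n0 : ℕ)))
        (m + n0)) ≠ ⊤ := by
    have hs := Real.summable_exp_neg_nat.mul_left (Real.exp C3')
    have hs' := (summable_nat_add_iff n0).2 hs
    refine ne_top_of_le_ne_top ?_ (ENNReal.tsum_le_tsum fun m => hbound (m + n0) (by omega))
    rw [ENNReal.tsum_mul_right]
    exact ENNReal.mul_ne_top hs'.tsum_ofReal_ne_top
      (ENNReal.mul_ne_top ENNReal.ofReal_ne_top (Wc_lt_top hδ0).ne)
  filter_upwards [ae_eventually_notMem hsum] with ω hω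
  rw [eventually_atTop] at hω ⊢
  obtain ⟨N, hN⟩ := hω
  refine ⟨N + n0, fun m hm => ?_⟩
  have := hN (m - n0) (by omega)
  rw [Nat.sub_add_cancel (by omega : n0 ≤ m)] at this
  exact this

/-- The main theorem for general laws. -/
theorem main (h : Hyp d α lam β κ c C μW μL) : ∃ A : ℝ, 0 < A ∧ ∀ᵐ ω ∂(law d μW μL),
    (∃ v, IsShortest α lam ω 0 v) ∧
    ∀ v, IsShortest α lam ω 0 v →
      ∀ᶠ n : ℕ in atTop, nrm (v n) ≤ Real.exp (A * (n * Real.log n)) := by
  obtain ⟨A, hA1, hA⟩ := ae_not_EvU h
  refine ⟨A, by linarith, ?_⟩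
  filter_upwards [hA, ae_good h, ae_one_le h, ae_mass h, ae_locfin h] with ω h1 h2 h3 h4 h5
  obtain ⟨J0, hJ⟩ := h2
  refine ⟨exists_shortest h5 0 (exists_exploding h hJ 0), fun v hv => ?_⟩
  obtain ⟨s0, hs01, hlink⟩ := link h hJ h3 h4 hv
  have ht : Tendsto (fun n : ℕ => sc A n) atTop atTop := by
    have ht1 : Tendsto (fun n : ℕ => (n : ℝ)) atTop atTop := tendsto_natCast_atTop_atTop
    have ht2 : Tendsto (fun n : ℕ => (n : ℝ) * Real.log n) atTop atTop :=
      ht1.atTop_mul_atTop₀ (Real.tendsto_log_atTop.comp ht1)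
    exact ht2.const_mul_atTop (by linarith)
  filter_upwards [h1, ht.eventually_ge_atTop s0] with n hn1 hn2
  by_contra hcon
  exact hn1 (hlink _ hn2 n ⟨n, le_rfl, not_le.1 hcon⟩)

/-- The bound is smaller than every double exponential. -/
theorem slow {A : ℝ} (hA : 0 < A) {b : ℝ} (hb : 1 < b) :
    ∀ᶠ n : ℕ in atTop, Real.exp (A * (n * Real.log n)) < Real.exp (b ^ n) := by
  have h1 := (tendsto_pow_const_div_const_pow_of_one_lt 2 hb).const_mul A
  rw [mul_zero] at h1
  filter_upwards [h1.eventually_lt_const (show (0 : ℝ) < 1 by norm_num), eventually_ge_atTop 1]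
    with n hn hn1
  apply Real.exp_lt_exp.2
  have hp : (0 : ℝ) < b ^ n := by positivity
  have hn' : (0 : ℝ) < n := by exact_mod_cast hn1
  rw [mul_div_assoc', div_lt_one hp] at hn
  refine lt_of_le_of_lt ?_ hn
  have : Real.log n ≤ n := (Real.log_le_sub_one_of_pos hn').trans (by linarith)
  have h2 : (n : ℝ) * Real.log n ≤ n ^ 2 := by nlinarith
  gcongr

end Pool.Agent.Y400.SE
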