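import Pool.Agent.W823.SFP.Paths
import Pool.Agent.W823.SFP.Prod

set_option autoImplicit false

namespace Pool.Agent.Y400.SE

open Pool.Agent.W823.SFP MeasureTheory ProbabilityTheory

/-- The standing assumptions. -/
structure Hyp (d : ℕ) (α lam β κ c C : ℝ) (μW μL : Measure ℝ) : Prop where
  hd : 1 ≤ d
  hα : (d : ℝ) < α
  hlam : 0 < lam
  hβ : 0 < β
  hγ1 : (d : ℝ) < α * β
  hγ2 : α * β < 2 * d
  probW : IsProbabilityMeasure μW
  probL : IsProbabilityMeasure μL
  hκ : 0 < κ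
  hc : 0 < c
  hC : 1 ≤ C
  oneW : μW (Set.Ici 1) = 1
  loW : ∀ t : ℝ, 1 ≤ t → ENNReal.ofReal (c * t ^ (-β)) ≤ μW (Set.Ici t)
  upW : ∀ t : ℝ, 1 ≤ t → μW (Set.Ici t) ≤ ENNReal.ofReal (C * t ^ (-β))
  loL : ∀ t : ℝ, 0 ≤ t → t ≤ 1 → ENNReal.ofReal (c * t ^ κ) ≤ μL (Set.Iic t)
  upL : ∀ t : ℝ, 0 ≤ t → μL (Set.Iic t) ≤ ENNReal.ofReal (C * t ^ κ)

/-- The threshold of the weights of class `j`. -/
noncomputable def th (β : ℝ) (j : ℕ) : ℝ := (2 : ℝ) ^ ((j : ℝ) / β)

/-- The exponent `ρ = (2 - γ) / γ`. -/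
noncomputable def rho (d : ℕ) (α β : ℝ) : ℝ := 2 * d / (α * β) - 1

/-- The side of the box in which the next vertex is searched. -/
noncomputable def rr (α β : ℝ) (j : ℕ) : ℕ := ⌊(2 : ℝ) ^ (2 * (j : ℝ) / (α * β))⌋₊

/-- The sites of the box. -/
def bsite {d r : ℕ} (u : Site d) (y : Fin d → Fin r) : Site d := fun i => u i + 1 + (y i : ℕ)

/-- Lower bound for the probability of an edge. -/
noncomputable def p0 (d : ℕ) (α lam : ℝ) : ℝ := 1 - Real.exp (-(lam / (d : ℝ) ^ α))

/-- The logarithmic size of a site. -/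
noncomputable def sl {d : ℕ} (u : Site d) : ℝ := Real.log (3 + nrm u)

noncomputable def kap0 (d : ℕ) (α β K : ℝ) (u : Site d) (j : ℕ) : ℝ :=
  K * (sl u + j) * (2 : ℝ) ^ (-(rho d α β * j))

/-- The threshold of the edge-weights. -/
noncomputable def kap (d : ℕ) (α β κ K : ℝ) (u : Site d) (j : ℕ) : ℝ :=
  kap0 d α β K u j ^ (1 / κ)

def Bad (d : ℕ) (α lam β κ K : ℝ) (u : Site d) (j : ℕ) : Set (Conf d) :=
  {ω | ∀ y : Fin d → Fin (rr α β j), ¬ (th β (j + 1) ≤ wt ω (bsite u y) ∧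
    mark ω u (bsite u y) < p0 d α lam ∧ cost ω u (bsite u y) ≤ kap d α β κ K u j)}

section basic

variable {d : ℕ} {α lam β κ c C : ℝ} {μW μL : Measure ℝ}

theorem nrm_eq (x : Site d) : nrm x = ‖(WithLp.toLp 2 (fun i => (x i : ℝ)) : EuclideanSpace ℝ (Fin d))‖ := by
  rw [EuclideanSpace.norm_eq]
  unfold nrm
  simp

theorem nrm_add_le (x y : Site d) : nrm (x + y) ≤ nrm x + nrm y := by
  rw [nrm_eq, nrm_eq, nrm_eq]
  refine le_trans (le_of_eq ?_) (norm_add_le _ _)
  congr 1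
  ext i
  simp

theorem sl_pos (u : Site d) : 1 ≤ sl u := by
  unfold sl
  have h3 : Real.exp 1 ≤ 3 + nrm u := by
    have := Real.exp_one_lt_d9
    have := nrm_nonneg u
    linarith
  calc (1 : ℝ) = Real.log (Real.exp 1) := (Real.log_exp 1).symm
    _ ≤ _ := Real.log_le_log (Real.exp_pos 1) h3

theorem th_pos (β : ℝ) (j : ℕ) : 0 < th β j := by unfold th; positivity

theorem one_le_th (hβ : 0 < β) (j : ℕ) : 1 ≤ th β j := by
  unfold th
  apply Real.one_le_rpow (by norm_num) (by positivity)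

theorem th_mono (hβ : 0 < β) {i j : ℕ} (h : i ≤ j) : th β i ≤ th β j := by
  unfold th
  apply Real.rpow_le_rpow_of_exponent_le (by norm_num)
  gcongr

theorem Hyp.th_pow (h : Hyp d α lam β κ c C μW μL) (j : ℕ) :
    th β j ^ (-β) = (2 : ℝ) ^ (-(j : ℝ)) := by
  unfold th
  rw [← Real.rpow_mul (by norm_num)]
  congr 1
  field_simp [h.hβ.ne']

theorem Hyp.tail_le (h : Hyp d α lam β κ c C μW μL) (j : ℕ) :
    μW (Set.Ici (th β j)) ≤ ENNReal.ofReal (C * (2 : ℝ) ^ (-(j : ℝ))) := by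
  rw [← h.th_pow j]
  exact h.upW _ (one_le_th h.hβ j)

theorem Hyp.tail_ge (h : Hyp d α lam β κ c C μW μL) (j : ℕ) :
    ENNReal.ofReal (c * (2 : ℝ) ^ (-(j : ℝ))) ≤ μW (Set.Ici (th β j)) := by
  rw [← h.th_pow j]
  exact h.loW _ (one_le_th h.hβ j)

theorem Hyp.c_le_one (h : Hyp d α lam β κ c C μW μL) : c ≤ 1 := by
  have h1 := h.loW 1 le_rfl
  rw [h.oneW, Real.one_rpow, mul_one] at h1
  by_contra hcon
  push Not at hcon
  have : (1 : ENNReal) < ENNReal.ofReal c := by
    rw [← ENNReal.ofReal_one]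
    exact (ENNReal.ofReal_lt_ofReal_iff (by linarith)).2 hcon
  exact absurd h1 (not_le.2 this)

theorem rr_le (α β : ℝ) (j : ℕ) : (rr α β j : ℝ) ≤ (2 : ℝ) ^ (2 * (j : ℝ) / (α * β)) :=
  Nat.floor_le (by positivity)

theorem Hyp.ab_pos (h : Hyp d α lam β κ c C μW μL) : 0 < α * β := by
  have := h.hγ1
  have : (0 : ℝ) ≤ d := Nat.cast_nonneg d
  linarith

theorem Hyp.dpos (h : Hyp d α lam β κ c C μW μL) : (1 : ℝ) ≤ d := by exact_mod_cast h.hd

theorem Hyp.apos (h : Hyp d α lam β κ c C μW μL) : 0 < α := by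
  have := h.hα; have := h.dpos; linarith

theorem Hyp.one_le_pow (h : Hyp d α lam β κ c C μW μL) (j : ℕ) :
    1 ≤ (2 : ℝ) ^ (2 * (j : ℝ) / (α * β)) := by
  have := h.ab_pos
  exact Real.one_le_rpow (by norm_num) (by positivity)

theorem le_rr (h : Hyp d α lam β κ c C μW μL) (j : ℕ) :
    (2 : ℝ) ^ (2 * (j : ℝ) / (α * β)) / 2 ≤ rr α β j := by
  have h1 := h.one_le_pow j
  have h2 : (2 : ℝ) ^ (2 * (j : ℝ) / (α * β)) < rr α β j + 1 := Nat.lt_floor_add_one _
  have h3 : (1 : ℝ) ≤ rr α β j := by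
    have : 1 ≤ rr α β j := (Nat.one_le_floor_iff _).2 h1
    exact_mod_cast this
  linarith

theorem Hyp.rho_pos (h : Hyp d α lam β κ c C μW μL) : 0 < rho d α β := by
  unfold rho
  have := h.ab_pos
  have : 1 < 2 * d / (α * β) := (one_lt_div this).2 h.hγ2
  linarith

theorem Hyp.rho_lt (h : Hyp d α lam β κ c C μW μL) : rho d α β < 1 := by
  unfold rho
  have h0 := h.ab_pos
  have : 2 * d / (α * β) < 2 := by rw [div_lt_iff₀ h0]; linarith [h.hγ1]
  linarith

theorem Hyp.p0_pos (h : Hyp d α lam β κ c C μW μL) : 0 < p0 d α lam := by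
  unfold p0
  have h1 : 0 < lam / (d : ℝ) ^ α := by
    have := h.dpos
    have := h.hlam
    positivity
  have : Real.exp (-(lam / (d : ℝ) ^ α)) < 1 := by
    rw [Real.exp_lt_one_iff]; linarith
  linarith

theorem p0_le (d : ℕ) (α lam : ℝ) : p0 d α lam ≤ 1 := by
  unfold p0; linarith [Real.exp_pos (-(lam / (d : ℝ) ^ α))]

theorem isProb (h : Hyp d α lam β κ c C μW μL) : ∀ i, IsProbabilityMeasure (marg (d := d) μW μL i) := by
  have := h.probW
  have := h.probL
  rintro (i | i | i)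
  · exact h.probW
  · constructor
    simp [marg]
  · exact h.probL

theorem unif_Iio (p : ℝ) (h1 : p ≤ 1) :
    (volume : Measure ℝ).restrict (Set.Icc 0 1) (Set.Iio p) = ENNReal.ofReal p := by
  rw [Measure.restrict_apply measurableSet_Iio]
  have : Set.Iio p ∩ Set.Icc 0 1 = Set.Ico 0 p := by
    ext x
    simp only [Set.mem_inter_iff, Set.mem_Iio, Set.mem_Icc, Set.mem_Ico]
    constructor
    · rintro ⟨a, b, c⟩; exact ⟨b, a⟩
    · rintro ⟨a, b⟩; exact ⟨b, a, by linarith⟩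
  rw [this, Real.volume_Ico, sub_zero]

theorem bsite_sub {r : ℕ} (u : Site d) (y : Fin d → Fin r) (i : Fin d) :
    (bsite u y - u) i = 1 + ((y i : ℕ) : ℤ) := by
  simp [bsite]; ring

theorem nrm_bsite_le {r : ℕ} (u : Site d) (y : Fin d → Fin r) :
    nrm (bsite u y - u) ≤ d * r := by
  unfold nrm
  apply Real.sqrt_le_iff.2
  refine ⟨by positivity, ?_⟩
  calc ∑ i, (((bsite u y - u) i : ℤ) : ℝ) ^ 2 ≤ ∑ i : Fin d, (r : ℝ) ^ 2 := by
        apply Finset.sum_le_sum
        intro i _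
        rw [bsite_sub]
        have : ((y i : ℕ) : ℝ) + 1 ≤ r := by exact_mod_cast (y i).2
        push_cast
        have h0 : (0 : ℝ) ≤ ((y i : ℕ) : ℝ) := Nat.cast_nonneg _
        nlinarith
    _ = d * (r : ℝ) ^ 2 := by simp
    _ ≤ (d * r : ℝ) ^ 2 := by
        rw [mul_pow]
        rcases Nat.eq_zero_or_pos d with rfl | hd
        · simp
        · have : (1 : ℝ) ≤ d := by exact_mod_cast hd
          have h2 : (0 : ℝ) ≤ (r : ℝ) ^ 2 := sq_nonneg _
          nlinarith [mul_nonneg (mul_nonneg (by linarith : (0:ℝ) ≤ d) (by linarith : (0:ℝ) ≤ (d:ℝ) - 1)) h2]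

theorem bsite_injective {r : ℕ} (u : Site d) : Function.Injective (bsite u : (Fin d → Fin r) → Site d) := by
  intro y y' h
  funext i
  have := congrFun h i
  simp only [bsite] at this
  ext
  omega

theorem bsite_ne (hd : 1 ≤ d) {r : ℕ} (u : Site d) (y : Fin d → Fin r) : bsite u y ≠ u := by
  intro h
  have := congrFun h ⟨0, hd⟩
  simp only [bsite] at this
  omega

/-- An exploding chain can be continued when the current site is not bad. -/
theorem not_bad (h : Hyp d α lam β κ c C μW μL) {ω : Conf d} {K : ℝ} {u : Site d} {j : ℕ}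
    (hb : ω ∉ Bad d α lam β κ K u j) : ∃ y : Site d, (∀ i, u i < y i) ∧
      nrm (y - u) ≤ d * (2 : ℝ) ^ (2 * (j : ℝ) / (α * β)) ∧ th β (j + 1) ≤ wt ω y ∧
      cost ω u y ≤ kap d α β κ K u j ∧ (th β j ≤ wt ω u → Joined α lam ω u y) := by
  unfold Bad at hb
  simp only [Set.mem_ofPred_eq, not_forall, not_not] at hb
  obtain ⟨y, hy1, hy2, hy3⟩ := hb
  have hnrm : nrm (bsite u y - u) ≤ d * (2 : ℝ) ^ (2 * (j : ℝ) / (α * β)) :=
    (nrm_bsite_le u y).trans (mul_le_mul_of_nonneg_left (rr_le α β j) (Nat.cast_nonneg d))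
  refine ⟨bsite u y, fun i => by simp only [bsite]; omega, hnrm, hy1, hy3, fun hu => ?_⟩
  have h1 : 1 ≤ nrm (u - bsite u y) :=
    one_le_nrm (sub_ne_zero.2 (bsite_ne h.hd u y).symm)
  rcases h1.eq_or_lt with h1 | h1
  · exact Or.inl h1.symm
  · refine Or.inr ⟨h1, lt_of_lt_of_le hy2 ?_⟩
    unfold p0
    apply sub_le_sub_left
    apply Real.exp_le_exp.2
    apply neg_le_neg
    rw [nrm_sub_comm]
    rw [nrm_sub_comm] at h1
    have hα := h.apos
    have hβ := h.hβ
    have hd := h.dpos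
    have hn : nrm (bsite u y - u) ^ α ≤ (d : ℝ) ^ α * (th β j * th β j) := by
      calc nrm (bsite u y - u) ^ α ≤ (d * (2 : ℝ) ^ (2 * (j : ℝ) / (α * β))) ^ α :=
            Real.rpow_le_rpow (nrm_nonneg _) hnrm hα.le
        _ = (d : ℝ) ^ α * (th β j * th β j) := by
            rw [Real.mul_rpow (by positivity) (by positivity), ← Real.rpow_mul (by norm_num)]
            unfold th
            rw [← Real.rpow_add (by norm_num)]
            congr 2
            field_simp
            ring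
    have hpos : 0 < nrm (bsite u y - u) ^ α := Real.rpow_pos_of_pos (by linarith) _
    have hth := th_pos β j
    have hw : th β j * th β j ≤ wt ω u * wt ω (bsite u y) :=
      mul_le_mul hu ((th_mono hβ (Nat.le_succ j)).trans hy1) hth.le (hth.le.trans hu)
    rw [div_le_div_iff₀ (by positivity) hpos]
    have hlam := h.hlam
    calc lam * nrm (bsite u y - u) ^ α ≤ lam * ((d : ℝ) ^ α * (th β j * th β j)) := by gcongr
      _ ≤ lam * ((d : ℝ) ^ α * (wt ω u * wt ω (bsite u y))) := by gcongr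
      _ = lam * wt ω u * wt ω (bsite u y) * (d : ℝ) ^ α := by ring

theorem kap0_nonneg (K : ℝ) (hK : 0 ≤ K) (u : Site d) (j : ℕ) : 0 ≤ kap0 d α β K u j := by
  unfold kap0
  have := sl_pos u
  positivity

theorem kap0_le_one (K : ℝ) (u : Site d) (j : ℕ)
    (hj : K * (sl u + j) ≤ (2 : ℝ) ^ (rho d α β * j)) : kap0 d α β K u j ≤ 1 := by
  unfold kap0
  rw [Real.rpow_neg (by norm_num)]
  exact mul_inv_le_one_of_le₀ hj (by positivity)

theorem bad_prob (h : Hyp d α lam β κ c C μW μL) {K : ℝ} (hK : 0 ≤ K) (u : Site d) (j : ℕ)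
    (hj : K * (sl u + j) ≤ (2 : ℝ) ^ (rho d α β * j)) :
    law d μW μL (Bad d α lam β κ K u j) ≤
      ENNReal.ofReal (Real.exp (-((2 : ℝ) ^ (-(d : ℝ) - 2) * (c * c * p0 d α lam) * (K * (sl u + j))))) := by
  have := isProb h
  have hk0 := kap0_nonneg (d := d) (α := α) (β := β) K hK u j
  have hk1 := kap0_le_one (α := α) (β := β) K u j hj
  set k0 := kap0 d α β K u j with hk0d
  have hkk : kap d α β κ K u j = k0 ^ (1 / κ) := rfl
  have hkn : 0 ≤ kap d α β κ K u j := by rw [hkk]; positivity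
  have hkl : kap d α β κ K u j ≤ 1 := by
    rw [hkk]; exact Real.rpow_le_one hk0 hk1 (by have := h.hκ; positivity)
  have hkp : kap d α β κ K u j ^ κ = k0 := by
    rw [hkk, ← Real.rpow_mul hk0, one_div_mul_cancel h.hκ.ne', Real.rpow_one]
  set kk := kap d α β κ K u j with hkkd
  -- the blocks
  let g : (Fin d → Fin (rr α β j)) × Fin 3 → Idx d := fun p =>
    match p.2 with
    | 0 => Sum.inl (bsite u p.1)
    | 1 => Sum.inr (Sum.inl s(u, bsite u p.1))
    | 2 => Sum.inr (Sum.inr s(u, bsite u p.1))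
  have hg : Function.Injective g := by
    rintro ⟨y, k⟩ ⟨y', k'⟩ hyy
    have hs : ∀ y y' : Fin d → Fin (rr α β j), s(u, bsite u y) = s(u, bsite u y') → y = y' := by
      intro y y' hs
      rw [Sym2.eq_iff] at hs
      rcases hs with ⟨-, h2⟩ | ⟨h1, -⟩
      · exact bsite_injective u h2
      · exact absurd h1.symm (bsite_ne h.hd u y')
    fin_cases k <;> fin_cases k' <;> simp [g] at hyy ⊢
    · exact bsite_injective u hyy
    · rcases hyy with h1 | ⟨h1, -⟩
      · exact bsite_injective u h1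
      · exact absurd h1.symm (bsite_ne h.hd u y')
    · rcases hyy with h1 | ⟨h1, -⟩
      · exact bsite_injective u h1
      · exact absurd h1.symm (bsite_ne h.hd u y')
  let T : (Fin d → Fin (rr α β j)) → Fin 3 → Set ℝ := fun _ k =>
    match k with
    | 0 => Set.Ici (th β (j + 1))
    | 1 => Set.Iio (p0 d α lam)
    | 2 => Set.Iic kk
  have hT : ∀ i k, MeasurableSet (T i k) := by
    intro i k
    fin_cases k <;> simp [T, measurableSet_Ici, measurableSet_Iio, measurableSet_Iic]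
  have hset : Bad d α lam β κ K u j = {ω | ∀ i, ¬ ∀ k, ω (g (i, k)) ∈ T i k} := by
    ext ω
    simp only [Bad, Set.mem_ofPred_eq]
    apply forall_congr'
    intro y
    apply not_congr
    rw [Fin.forall_fin_succ, Fin.forall_fin_succ, Fin.forall_fin_one]
    simp [g, T, wt, mark, cost, hkkd]
  rw [law, hset, block_prob (marg μW μL) g hg T hT]
  -- each factor
  have hfac : ∀ y : Fin d → Fin (rr α β j), 1 - ∏ k, marg μW μL (g (y, k)) (T y k) ≤
      ENNReal.ofReal (Real.exp (-((2 : ℝ) ^ (-((j : ℝ) + 1)) * (c * c * p0 d α lam) * (k0 / 2)))) := by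
    intro y
    rw [Fin.prod_univ_three]
    have e0 : ENNReal.ofReal (c * (2 : ℝ) ^ (-((j : ℝ) + 1))) ≤ marg μW μL (g (y, 0)) (T y 0) := by
      have := h.tail_ge (j + 1)
      push_cast at this
      exact this
    have e1 : marg μW μL (g (y, 1)) (T y 1) = ENNReal.ofReal (p0 d α lam) :=
      unif_Iio _ (p0_le d α lam)
    have e2 : ENNReal.ofReal (c * k0) ≤ marg μW μL (g (y, 2)) (T y 2) := by
      rw [← hkp]
      exact h.loL kk hkn hkl
    have hp0 := h.p0_pos
    have hc := h.hc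
    calc 1 - marg μW μL (g (y, 0)) (T y 0) * marg μW μL (g (y, 1)) (T y 1) *
          marg μW μL (g (y, 2)) (T y 2)
        ≤ 1 - ENNReal.ofReal (c * (2 : ℝ) ^ (-((j : ℝ) + 1))) * ENNReal.ofReal (p0 d α lam) *
          ENNReal.ofReal (c * k0) := by
          rw [e1]; gcongr
      _ = ENNReal.ofReal (1 - c * (2 : ℝ) ^ (-((j : ℝ) + 1)) * p0 d α lam * (c * k0)) := by
          rw [← ENNReal.ofReal_mul (by positivity), ← ENNReal.ofReal_mul (by positivity),
            ENNReal.ofReal_sub _ (by positivity), ENNReal.ofReal_one]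
      _ ≤ _ := by
          apply ENNReal.ofReal_le_ofReal
          have e5 := Real.add_one_le_exp (-((2 : ℝ) ^ (-((j : ℝ) + 1)) * (c * c * p0 d α lam) * (k0 / 2)))
          have e6 : 0 ≤ (2 : ℝ) ^ (-((j : ℝ) + 1)) * (c * c * p0 d α lam) * (k0 / 2) := by positivity
          have e7 : c * (2 : ℝ) ^ (-((j : ℝ) + 1)) * p0 d α lam * (c * k0) =
            2 * ((2 : ℝ) ^ (-((j : ℝ) + 1)) * (c * c * p0 d α lam) * (k0 / 2)) := by ring
          linarith
  calc ∏ y, (1 - ∏ k, marg μW μL (g (y, k)) (T y k))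
      ≤ ∏ _y : Fin d → Fin (rr α β j), ENNReal.ofReal (Real.exp (-((2 : ℝ) ^ (-((j : ℝ) + 1)) * (c * c * p0 d α lam) * (k0 / 2)))) :=
        Finset.prod_le_prod' fun y _ => hfac y
    _ = ENNReal.ofReal (Real.exp (-((rr α β j : ℝ) ^ d * ((2 : ℝ) ^ (-((j : ℝ) + 1)) * (c * c * p0 d α lam) * (k0 / 2))))) := by
        rw [Finset.prod_const, Finset.card_univ, Fintype.card_fun, Fintype.card_fin, Fintype.card_fin,
          ← ENNReal.ofReal_pow (Real.exp_pos _).le, ← Real.exp_nat_mul]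
        congr 2
        push_cast
        ring
    _ ≤ _ := by
        apply ENNReal.ofReal_le_ofReal
        apply Real.exp_le_exp.2
        apply neg_le_neg
        have hab := h.ab_pos
        have hp0 := h.p0_pos
        have hc := h.hc
        have h1 : (2 : ℝ) ^ (2 * (j : ℝ) * d / (α * β)) * (2 : ℝ) ^ (-(d : ℝ)) ≤ (rr α β j : ℝ) ^ d := by
          calc (2 : ℝ) ^ (2 * (j : ℝ) * d / (α * β)) * (2 : ℝ) ^ (-(d : ℝ))
              = ((2 : ℝ) ^ (2 * (j : ℝ) / (α * β)) / 2) ^ d := by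
                rw [div_pow, ← Real.rpow_natCast ((2 : ℝ) ^ (2 * (j : ℝ) / (α * β))) d,
                  ← Real.rpow_mul (by norm_num), Real.rpow_neg (by norm_num), Real.rpow_natCast,
                  div_eq_mul_inv]
                congr 2
                ring
            _ ≤ _ := pow_le_pow_left₀ (by positivity) (le_rr h j) d
        calc (2 : ℝ) ^ (-(d : ℝ) - 2) * (c * c * p0 d α lam) * (K * (sl u + j))
            = (2 : ℝ) ^ (2 * (j : ℝ) * d / (α * β)) * (2 : ℝ) ^ (-(d : ℝ)) *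
              ((2 : ℝ) ^ (-((j : ℝ) + 1)) * (c * c * p0 d α lam) * (k0 / 2)) := by
              rw [hk0d]
              unfold kap0 rho
              generalize c * c * p0 d α lam = P
              have : (2 : ℝ) ^ (2 * (j : ℝ) * d / (α * β)) * (2 : ℝ) ^ (-(d : ℝ)) *
                ((2 : ℝ) ^ (-((j : ℝ) + 1)) * P * (K * (sl u + ↑j) * (2 : ℝ) ^ (-((2 * ↑d / (α * β) - 1) * ↑j)) / 2)) =
                ((2 : ℝ) ^ (2 * (j : ℝ) * d / (α * β)) * (2 : ℝ) ^ (-(d : ℝ)) *
                (2 : ℝ) ^ (-((j : ℝ) + 1)) * (2 : ℝ) ^ (-((2 * ↑d / (α * β) - 1) * (j : ℝ))) * (2 : ℝ) ^ (-1 : ℝ)) * (P * (K * (sl u + ↑j))) := by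
                rw [Real.rpow_neg_one]; ring
              rw [this, ← Real.rpow_add (by norm_num), ← Real.rpow_add (by norm_num),
                ← Real.rpow_add (by norm_num), ← Real.rpow_add (by norm_num), mul_assoc]
              congr 2
              field_simp
              ring
          _ ≤ _ := by
              apply mul_le_mul_of_nonneg_right h1
              positivity

end basic

end Pool.Agent.Y400.SE
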