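import Pool.Agent.Y400.SE.Link

set_option autoImplicit false

namespace Pool.Agent.Y400.SE

open Pool.Agent.W823.SFP MeasureTheory ProbabilityTheory Filter

variable {d : ℕ} {α lam β κ c C : ℝ} {μW μL : Measure ℝ}

theorem weight_prob (h : Hyp d α lam β κ c C μW μL) (u : Site d) (T : Set ℝ) (hT : MeasurableSet T) :
    law d μW μL {ω | wt ω u ∈ T} = μW T := by
  have := isProb h
  have h1 := cyl_prob (marg (d := d) μW μL) (ι := Unit) (fun _ => Sum.inl u)
    (fun _ _ _ => Subsingleton.elim _ _) (fun _ => T) (fun _ => hT)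
  simp only [forall_const, Finset.univ_unique, Finset.prod_singleton] at h1
  exact h1

theorem ae_one_le (h : Hyp d α lam β κ c C μW μL) : ∀ᵐ ω ∂(law d μW μL), ∀ u, 1 ≤ wt ω u := by
  rw [ae_all_iff]
  intro u
  have hp := h.probW
  have h1 : μW (Set.Ici 1) = 1 := h.oneW
  have h2 : μW (Set.Iio 1) = 0 := by
    have := prob_compl_eq_one_sub (μ := μW) (measurableSet_Ici : MeasurableSet (Set.Ici (1 : ℝ)))
    rw [Set.compl_Ici, h1] at this
    simpa using this
  rw [ae_iff]
  have : {ω : Conf d | ¬ 1 ≤ wt ω u} = {ω | wt ω u ∈ Set.Iio 1} := by ext; simp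
  rw [this, weight_prob h u _ measurableSet_Iio, h2]

theorem ae_mass (h : Hyp d α lam β κ c C μW μL) : ∀ᵐ ω ∂(law d μW μL),
    {u : Site d | (3 + nrm u) ^ (dm d α β / β) ≤ wt ω u}.Finite := by
  have hβ := h.hβ
  have hdm := h.dm_pos
  have hd := h.dpos
  have hγ1 := h.hγ1
  have hγ2 := h.hγ2
  set a : ℝ := (α * β / d - 1) / 2 with ha
  have ha0 : 0 < a := by
    rw [ha]; have : 1 < α * β / d := (one_lt_div (by linarith)).2 hγ1
    linarith
  have ha1 : a ≤ 1 := by
    rw [ha]; have : α * β / d < 2 := (div_lt_iff₀ (by linarith)).2 (by linarith)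
    linarith
  have hdma : dm d α β = d * (1 + a) := by rw [ha]; unfold dm; field_simp; ring
  apply ae_finite_setOfPred_mem (s := fun u : Site d => {ω : Conf d | (3 + nrm u) ^ (dm d α β / β) ≤ wt ω u})
  have hC1 := h.hC
  have hC0 : 0 ≤ C := by linarith
  refine ne_top_of_le_ne_top (b := ∑' u : Site d, ENNReal.ofReal C * ∏ i, gd a (u i)) ?_ ?_
  · rw [ENNReal.tsum_mul_left]
    exact ENNReal.mul_ne_top ENNReal.ofReal_ne_top
      (ne_top_of_le_ne_top ENNReal.ofReal_ne_top (lattice_sum_bound d a ha0 ha1))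
  · apply ENNReal.tsum_le_tsum
    intro u
    have hn := nrm_nonneg u
    have h1 := weight_prob h u (Set.Ici ((3 + nrm u) ^ (dm d α β / β))) measurableSet_Ici
    simp only [Set.mem_Ici] at h1
    rw [h1]
    refine (h.upW _ (Real.one_le_rpow (by linarith) (by positivity))).trans ?_
    rw [← Real.rpow_mul (by linarith), ENNReal.ofReal_mul hC0]
    apply mul_le_mul' le_rfl
    have e : dm d α β / β * -β = -(d * (1 + a)) := by rw [hdma]; field_simp
    rw [e]
    unfold gd
    rw [← ENNReal.ofReal_prod_of_nonneg (fun i _ => by positivity)]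
    apply ENNReal.ofReal_le_ofReal
    have : (3 + nrm u) ^ (-((d : ℝ) * (1 + a))) = ∏ _i : Fin d, (3 + nrm u) ^ (-(1 + a)) := by
      rw [Finset.prod_const, Finset.card_univ, Fintype.card_fin, ← Real.rpow_natCast,
        ← Real.rpow_mul (by linarith)]
      congr 1; ring
    rw [this]
    apply Finset.prod_le_prod (fun i _ => by positivity)
    intro i _
    apply Real.rpow_le_rpow_of_nonpos (by positivity) _ (by linarith)
    exact max_le (by linarith) ((abs_le_nrm u i).trans (by linarith))

/-- Almost surely the graph is locally finite. -/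
theorem ae_locfin (h : Hyp d α lam β κ c C μW μL) : ∀ᵐ ω ∂(law d μW μL),
    ∀ x : Site d, {y | Joined α lam ω x y}.Finite := by
  have := isProb h
  have hβ := h.hβ
  have hα := h.apos
  have hd := h.dpos
  have hγ1 := h.hγ1
  have hα' := h.hα
  have hab := h.ab_pos
  have hCL : 0 < max 1 lam := lt_of_lt_of_le one_pos (le_max_left _ _)
  -- the exponent
  obtain ⟨a, ha0, ha1, haα, haγ⟩ : ∃ a : ℝ, 0 < a ∧ a ≤ 1 ∧ d * (1 + a) ≤ α ∧ d * (1 + a) < α * β := by
    refine ⟨min 1 (min (α / d - 1) ((α * β / d - 1) / 2)), ?_, min_le_left _ _, ?_, ?_⟩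
    · apply lt_min one_pos (lt_min _ _)
      · have : 1 < α / d := (one_lt_div (by linarith)).2 hα'
        linarith
      · have : 1 < α * β / d := (one_lt_div (by linarith)).2 hγ1
        linarith
    · have h1 : min 1 (min (α / d - 1) ((α * β / d - 1) / 2)) ≤ α / d - 1 :=
        (min_le_right _ _).trans (min_le_left _ _)
      calc (d : ℝ) * (1 + min 1 (min (α / d - 1) ((α * β / d - 1) / 2))) ≤ d * (1 + (α / d - 1)) := by gcongr
        _ = α := by field_simp; ring
    · have h1 : min 1 (min (α / d - 1) ((α * β / d - 1) / 2)) ≤ (α * β / d - 1) / 2 :=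
        (min_le_right _ _).trans (min_le_right _ _)
      calc (d : ℝ) * (1 + min 1 (min (α / d - 1) ((α * β / d - 1) / 2)))
          ≤ d * (1 + (α * β / d - 1) / 2) := by gcongr
        _ = (d + α * β) / 2 := by field_simp; ring
        _ < α * β := by linarith
  set e : ℝ := d * (1 + a) / α with he
  have he0 : 0 ≤ e := by positivity
  have he1 : e ≤ 1 := by rw [he, div_le_one hα]; exact haα
  have hαe : α * e = d * (1 + a) := by rw [he]; field_simp
  set δ : ℝ := 1 - e / β with hδ
  have hδ0 : 0 < δ := by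
    have : e / β < 1 := by
      rw [he, div_div, div_lt_one (by positivity)]; exact haγ
    linarith
  have hx : ∀ x : Site d, ∀ᵐ ω ∂(law d μW μL), {y | Joined α lam ω x y}.Finite := by
    intro x
    let A : Site d × ℕ × ℕ → Set (Conf d) := fun q =>
      {ω | q.1 ≠ x ∧ th β q.2.1 ≤ wt ω x ∧ th β q.2.2 ≤ wt ω q.1 ∧
        mark ω x q.1 ∈ Mset (QQ α lam β q.2.1 q.2.2 (nrm (q.1 - x)) e)}
    have hC0 : 0 ≤ C := by linarith [h.hC]
    have hA : ∀ q, law d μW μL (A q) ≤ ENNReal.ofReal (C * C * max 1 lam) * ((∏ i, gd a ((q.1 - x) i)) *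
        (ENNReal.ofReal (wr β e 0 q.2.1) * ENNReal.ofReal (wr β e 0 q.2.2))) := by
      rintro ⟨y, i, j⟩
      by_cases hy : y = x
      · have : A (y, i, j) = ∅ := by ext ω; simp [A, hy]
        rw [this, measure_empty]; exact zero_le
      · let g : Fin 3 → Idx d := ![Sum.inl x, Sum.inl y, Sum.inr (Sum.inl s(x, y))]
        have hg : Function.Injective g := by
          intro k k' hkk
          fin_cases k <;> fin_cases k' <;> simp [g] at hkk ⊢
          · exact hy hkk.symm
          · exact hy hkk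
        let T : Fin 3 → Set ℝ := ![Set.Ici (th β i), Set.Ici (th β j),
          Mset (QQ α lam β i j (nrm (y - x)) e)]
        have hT : ∀ k, MeasurableSet (T k) := by
          intro k; fin_cases k
          · exact measurableSet_Ici
          · exact measurableSet_Ici
          · exact measurableSet_Mset _
        have hsub : A (y, i, j) ⊆ {ω | ∀ k, ω (g k) ∈ T k} := by
          rintro ω ⟨-, h1, h2, h3⟩ k
          fin_cases k
          · exact h1
          · exact h2
          · exact h3
        refine (measure_mono hsub).trans ?_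
        rw [law, cyl_prob (marg μW μL) g hg T hT, Fin.prod_univ_three]
        have e0 : marg μW μL (g 0) (T 0) ≤ ENNReal.ofReal (C * (2 : ℝ) ^ (-(i : ℝ))) := h.tail_le i
        have e1 : marg μW μL (g 1) (T 1) ≤ ENNReal.ofReal (C * (2 : ℝ) ^ (-(j : ℝ))) := h.tail_le j
        have e2 : marg μW μL (g 2) (T 2) ≤ ENNReal.ofReal (QQ α lam β i j (nrm (y - x)) e) :=
          unif_Mset _
        have hn : 0 < nrm (y - x) := by linarith [one_le_nrm (sub_ne_zero.2 hy)]
        have hti := th_pos β (i + 1)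
        have htj := th_pos β (j + 1)
        have e3 : QQ α lam β i j (nrm (y - x)) e = max 1 lam * (nrm (y - x) ^ (-((d : ℝ) * (1 + a))) *
            (th β (i + 1) ^ e * th β (j + 1) ^ e)) := by
          unfold QQ
          rw [Real.div_rpow (by positivity) (by positivity), Real.mul_rpow hti.le htj.le,
            ← Real.rpow_mul hn.le, hαe, Real.rpow_neg hn.le]
          field_simp
        have e4 := nrm_rpow_le (sub_ne_zero.2 hy) a ha0
        calc marg μW μL (g 0) (T 0) * marg μW μL (g 1) (T 1) * marg μW μL (g 2) (T 2)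
            ≤ ENNReal.ofReal (C * (2 : ℝ) ^ (-(i : ℝ))) * ENNReal.ofReal (C * (2 : ℝ) ^ (-(j : ℝ))) *
              ENNReal.ofReal (QQ α lam β i j (nrm (y - x)) e) := by gcongr
          _ = ENNReal.ofReal (C * C * max 1 lam) * (ENNReal.ofReal (nrm (y - x) ^ (-((d : ℝ) * (1 + a)))) *
              (ENNReal.ofReal (wr β e 0 i) * ENNReal.ofReal (wr β e 0 j))) := by
              rw [e3]
              unfold wr
              rw [add_zero]
              rw [← ENNReal.ofReal_mul (by positivity), ← ENNReal.ofReal_mul (by positivity),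
                ← ENNReal.ofReal_mul (by positivity), ← ENNReal.ofReal_mul (by positivity),
                ← ENNReal.ofReal_mul (by positivity)]
              congr 1
              ring
          _ ≤ _ := by gcongr
    have hsum : ∑' q, law d μW μL (A q) ≠ ⊤ := by
      refine ne_top_of_le_ne_top ?_ (ENNReal.tsum_le_tsum hA)
      rw [ENNReal.tsum_mul_left]
      apply ENNReal.mul_ne_top ENNReal.ofReal_ne_top
      rw [ENNReal.tsum_prod']
      simp_rw [ENNReal.tsum_mul_left]
      rw [ENNReal.tsum_mul_right]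
      apply ENNReal.mul_ne_top
      · have : ∑' y : Site d, ∏ i, gd a ((y - x) i) = ∑' z : Site d, ∏ i, gd a (z i) :=
          (Equiv.subRight x).tsum_eq (fun z : Site d => ∏ i, gd a (z i))
        rw [this]
        exact ne_top_of_le_ne_top ENNReal.ofReal_ne_top (lattice_sum_bound d a ha0 ha1)
      · rw [ENNReal.tsum_prod']
        simp_rw [ENNReal.tsum_mul_left]
        rw [ENNReal.tsum_mul_right]
        have hw := sum_wr h (η := e) (θ0 := 0) hδ0 (by rw [add_zero, hδ]; linarith)
        exact ENNReal.mul_ne_top (ne_top_of_le_ne_top (Wc_lt_top hδ0).ne hw)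
          (ne_top_of_le_ne_top (Wc_lt_top hδ0).ne hw)
    filter_upwards [ae_finite_setOfPred_mem hsum, ae_one_le h] with ω hω hW
    refine (hω.image Prod.fst).subset ?_
    intro y hy
    have hne : y ≠ x := fun hh => Joined.ne hy hh.symm
    obtain ⟨i, hi1, hi2⟩ := exists_class hβ (hW x)
    obtain ⟨j, hj1, hj2⟩ := exists_class hβ (hW y)
    refine ⟨(y, i, j), ⟨hne, hi1, hj1, ?_⟩, rfl⟩
    exact joined_mark h hy (by linarith [hW x]) (by linarith [hW y]) hi2 hj2 he0 he1
  rw [ae_all_iff]
  exact hx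

/-- Almost surely there is an exploding path from every vertex. -/
theorem exists_exploding (h : Hyp d α lam β κ c C μW μL) {ω : Conf d} {J0 : ℕ}
    (hJ : ∀ (u : Site d) (j : ℕ), J0 ≤ j → KK d α lam c * (sl u + j) ≤ (2 : ℝ) ^ (rho d α β * j) →
      ω ∉ Bad d α lam β κ (KK d α lam c) u j) (x : Site d) : ∃ a, IsExploding α lam ω x a := by
  have hρ := h.rho_pos
  have hK := h.KK_pos
  have hC3 := h.C3_nonneg
  have hC4 := h.C4_pos
  -- linear functions are below the exponential
  have hlin : ∀ a b : ℝ, ∀ᶠ j : ℕ in atTop, a * (j : ℝ) + b ≤ (2 : ℝ) ^ (rho d α β * j) := by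
    intro a b
    have h2 : (1 : ℝ) < (2 : ℝ) ^ (rho d α β) := Real.one_lt_rpow (by norm_num) hρ
    have h1 := tendsto_pow_const_div_const_pow_of_one_lt 1 h2
    have h3 := tendsto_pow_const_div_const_pow_of_one_lt 0 h2
    have h4 := (h1.const_mul a).add (h3.const_mul b)
    simp only [mul_zero, add_zero] at h4
    filter_upwards [h4.eventually_le_const (show (0 : ℝ) < 1 by norm_num)] with j hj
    have hp : (0 : ℝ) < ((2 : ℝ) ^ (rho d α β)) ^ j := by positivity
    rw [Real.rpow_mul (by norm_num), Real.rpow_natCast]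
    have : a * ((j : ℝ) ^ 1 / ((2 : ℝ) ^ (rho d α β)) ^ j) + b * ((j : ℝ) ^ 0 / ((2 : ℝ) ^ (rho d α β)) ^ j) =
        (a * j + b) / ((2 : ℝ) ^ (rho d α β)) ^ j := by field_simp
    rw [this, div_le_one hp] at hj
    exact hj
  obtain ⟨j, h1, h2, h3⟩ : ∃ j : ℕ, J0 ≤ j ∧
      KK d α lam c * (sl (0 : Site d) + j) ≤ (2 : ℝ) ^ (rho d α β * j) ∧
      C4 d α lam β c * ((sl (0 : Site d) + C3 d α β * (j + 1)) + j + 2) ≤ (2 : ℝ) ^ (rho d α β * j) := by
    have e1 := hlin (KK d α lam c) (KK d α lam c * sl (0 : Site d))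
    have e2 := hlin (C4 d α lam β c * (C3 d α β + 1)) (C4 d α lam β c * (sl (0 : Site d) + C3 d α β + 2))
    obtain ⟨j, hj⟩ := ((eventually_ge_atTop J0).and (e1.and e2)).exists
    exact ⟨j, hj.1, by linarith [hj.2.1], by linarith [hj.2.2]⟩
  obtain ⟨y, -, hy1, hy2, -, -⟩ := not_bad h (hJ 0 j h1 h2)
  have hsl := sl_step h hy1
  obtain ⟨a, ha, -⟩ := chain h hJ y (j + 1) (by omega) hy2 (by
    push_cast
    calc C4 d α lam β c * (sl y + (j + 1) + 1)
        ≤ C4 d α lam β c * ((sl (0 : Site d) + C3 d α β * (j + 1)) + j + 2) := by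
          apply mul_le_mul_of_nonneg_left _ hC4.le; linarith
      _ ≤ (2 : ℝ) ^ (rho d α β * j) := h3
      _ ≤ _ := by
          apply Real.rpow_le_rpow_of_exponent_le (by norm_num)
          nlinarith)
  exact exists_exploding_all ⟨y, a, ha⟩ x

end Pool.Agent.Y400.SE
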